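import Pool.Agent.H673R2.OneOne.Gen

set_option autoImplicit false

/-!
# Relative to a random oracle the complete sets for `NP` form a single 1-degree

Idea of the proof (`Pool.Agent.H673R2.OneOne`). Let `G` and `G'` be two length-doubling functions
whose values are read off the oracle. If `B` is hard and `L` is in `NP`, then the set of the pairs
`(x, r)` with `r = G s` for some `s` and `x ∈ L`, or `r = G' s` for some `s`, is in `NP`, and reduces
to `B` by some function `F`. The new reduction maps `x` to `F (x, G s)`, where the seed `s = s(x)` is
read off a part of the oracle which is out of the reach of `F`. If the value `y` of `F` at this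
place is one of few given strings, then with high probability it is also attained by `F` at some
`(x, G' s')`, which is in the set, and at some `(x, v)`, where `v` is not a value, which is not.
-/

namespace Pool.Agent.Results.MP_8a92de_lc.RandomOracleNP

open MeasureTheory Pool.Agent.H628R3.RO

/-- `L` reduces to `B`, relative to the oracle `A`, by a one-one and length-increasing function
computable in polynomial time relative to `A`. -/
def OneOneRed (A : Oracle) (L B : Set (List Bool)) : Prop :=
  ∃ F : List Bool → List Bool, IsFP A F ∧ Function.Injective F ∧
    (∀ x, x.length < (F x).length) ∧ ∀ x, x ∈ L ↔ F x ∈ B

/-- For almost every oracle `A`: if all sets in `NP` (relative to `A`) are many-one reducible to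
`B`, then all sets in `NP` are reducible to `B` by one-one length-increasing reductions. In
particular any two complete sets for `NP` are 1-equivalent. -/
theorem result : ∀ᵐ A ∂randomOracle, ∀ B : Set (List Bool), NPHardRel A B →
    ∀ L : Set (List Bool), IsNP A L → OneOneRed A L B := by
  filter_upwards [Pool.Agent.H673R2.OneOne.ae_Good] with A hA B hB L hL
  exact Pool.Agent.H673R2.OneOne.np_case hA hB hL

end Pool.Agent.Results.MP_8a92de_lc.RandomOracleNP
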