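import Pool.Agent.W909.OneOneSpace

set_option autoImplicit false

/-!
# Relative to a random oracle the complete sets for `PSPACE` form a single 1-degree

`IsPSPACE` is polynomial space relative to an oracle (`Pool.Agent.H620R2.Gauge.Defs`). The
probabilistic part of the proof is in `Pool.Agent.H673R2.OneOne`.
-/

namespace Pool.Agent.Results.MP_8a92de_lc.RandomOraclePSPACE

open MeasureTheory Pool.Agent.H628R3.RO
open Pool.Agent.H620R2.Gauge (IsPSPACE)

/-- `L` reduces to `B`, relative to the oracle `A`, by a one-one and length-increasing function
computable in polynomial time relative to `A`. -/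
def OneOneRed (A : Oracle) (L B : Set (List Bool)) : Prop :=
  ∃ F : List Bool → List Bool, IsFP A F ∧ Function.Injective F ∧
    (∀ x, x.length < (F x).length) ∧ ∀ x, x ∈ L ↔ F x ∈ B

/-- For almost every oracle `A`: if all sets in `PSPACE` (relative to `A`) are many-one reducible
to `B`, then all sets in `PSPACE` are reducible to `B` by one-one length-increasing reductions. In
particular any two complete sets for `PSPACE` are 1-equivalent. -/
theorem result : ∀ᵐ A ∂randomOracle, ∀ B : Set (List Bool),
    (∀ L : Set (List Bool), IsPSPACE A L → Red A L B) →
    ∀ L : Set (List Bool), IsPSPACE A L → OneOneRed A L B := by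
  filter_upwards [Pool.Agent.H673R2.OneOne.ae_Good] with A hA B hB L hL
  exact Pool.Agent.W909.pspace_case hA hB hL

end Pool.Agent.Results.MP_8a92de_lc.RandomOraclePSPACE
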